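import Pool.Agent.Q28.HJ.Small

/-!
# Motives generated by finitely many motives
-/

open CategoryTheory MonoidalCategory

universe v u w

namespace Pool.Agent.Q296.ES

open Pool.Agent.Q28.HJ

variable {𝓜 : Type u} [Category.{v} 𝓜] [Preadditive 𝓜] [MonoidalCategory 𝓜]

lemma genBy_mono {L : 𝓜} {P Q : 𝓜 → Prop} (h : ∀ M, P M → Q M) {M : 𝓜} (hM : GenBy L P M) :
    GenBy L Q M :=
  hM.bind (fun _ hN => .of (h _ hN))

/-- a motive generated by motives with the property `P` is generated by finitely many of them -/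
lemma genBy_list {L : 𝓜} {P : 𝓜 → Prop} {M : 𝓜} (h : GenBy L P M) :
    ∃ l : List 𝓜, (∀ N ∈ l, P N) ∧ GenBy L (fun N => N ∈ l) M := by
  induction h with
  | @of M h => exact ⟨[M], by simpa using h, .of (by simp)⟩
  | unit => exact ⟨[], by simp, .unit⟩
  | lef => exact ⟨[], by simp, .lef⟩
  | tensor _ _ ih₁ ih₂ =>
    obtain ⟨l₁, a₁, b₁⟩ := ih₁
    obtain ⟨l₂, a₂, b₂⟩ := ih₂
    refine ⟨l₁ ++ l₂, ?_, .tensor (genBy_mono ?_ b₁) (genBy_mono ?_ b₂)⟩
    · intro N hN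
      rcases List.mem_append.1 hN with hN | hN
      · exact a₁ N hN
      · exact a₂ N hN
    · intro N hN; exact List.mem_append.2 (Or.inl hN)
    · intro N hN; exact List.mem_append.2 (Or.inr hN)
  | split i₁ r₁ i₂ r₂ e _ _ ih₁ ih₂ =>
    obtain ⟨l₁, a₁, b₁⟩ := ih₁
    obtain ⟨l₂, a₂, b₂⟩ := ih₂
    refine ⟨l₁ ++ l₂, ?_, .split i₁ r₁ i₂ r₂ e (genBy_mono ?_ b₁) (genBy_mono ?_ b₂)⟩
    · intro N hN
      rcases List.mem_append.1 hN with hN | hN
      · exact a₁ N hN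
      · exact a₂ N hN
    · intro N hN; exact List.mem_append.2 (Or.inl hN)
    · intro N hN; exact List.mem_append.2 (Or.inr hN)
  | untwist _ ih =>
    obtain ⟨l, a, b⟩ := ih
    exact ⟨l, a, .untwist b⟩

end Pool.Agent.Q296.ES
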