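import Pool.Agent.Q296.ES.List

/-!
# The Mumford-Tate conjecture for sums of ternary cubic and ternary quartic forms
-/

open CategoryTheory MonoidalCategory

universe v u w

namespace Pool.Agent.Q296.ES

open Pool.Agent.Q28.HJ

/-- The category `𝓜` of motives over the algebraic closure of a finitely generated field `k` of
characteristic zero (Andre motives, or motives for absolute Hodge cycles), the hypersurfaces, and the
Mumford-Tate conjecture. Motives over finite extensions of `k` are considered as objects of `𝓜`: the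
identity component of `G_{ℓ,k}(M)` and the Mumford-Tate group `G_σ(M)` do not change under finite
extensions of `k`. -/
structure MTData (𝓜 : Type u) [Category.{v} 𝓜] extends JoinData.{v, u, w} 𝓜 where
  /-- the motive of a smooth hypersurface -/
  mot : Hyp → 𝓜
  /-- `M` is an abelian motive: it belongs to the tannakian category generated by the motives of
  abelian varieties -/
  Abelian : 𝓜 → Prop
  /-- the motivic Mumford-Tate conjecture for `M`: for all primes `ℓ`, `G_{ℓ,k'}(M')° = G_σ(M')_{ℚ_ℓ}`
  for all motives `M'` over finite extensions `k'` of `k` whose base change is `M` -/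
  MTC : 𝓜 → Prop

namespace MTData

variable {𝓜 : Type u} [Category.{v} 𝓜] [Preadditive 𝓜] [MonoidalCategory 𝓜]
  (T : MTData.{v, u, w} 𝓜)

/-- `W` is a smooth hypersurface which is a sum, in disjoint sets of variables, of cubic forms in at
most three variables or of quartic forms in at most three variables, or of such forms minus `u ^ 3`
(`u ^ 4`), `u` a further variable. The number of summands, and so the dimension, is arbitrary. -/
def IsTernarySum (W : T.Hyp) : Prop :=
  T.SumOf (T.blocks (T.forms 3 1)) W ∨ T.SumOf (T.blocks (T.forms 4 1)) W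

/-- Known facts.
* `core`: sums of forms (Shioda, Katsura). `mot`: the motive of a hypersurface is a direct sum of
  `M_X` and of powers of `L`.
* `commelin`: let `A` and `B` be abelian motives for which the Mumford-Tate conjecture holds. Then it
  holds for the direct sum of `A`, `B` and `L` (Commelin), and so for all objects of the tannakian
  category generated by them: both groups of such an object are images of the groups of the sum.
* `lef`: the conjecture holds for `1` and `L`. `points`: finite sets have motives which are sums of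
  copies of the unit motive.
* `cubic`: plane cubic curves are elliptic curves (Serre), cubic surfaces are rational.
* `quartic`: the conjecture holds for curves of genus three, such as plane quartic curves (abelian
  varieties of dimension at most three), and for K3 surfaces, such as quartic surfaces (Tankeev,
  Andre); the motives of K3 surfaces are abelian (Andre). -/
structure Facts : Prop where
  core : T.CoreFacts
  mot : ∀ X : T.Hyp, T.Smooth X → GenBy T.L (fun N => N = T.prim X) (T.mot X)
  commelin : ∀ A B : 𝓜, T.Abelian A → T.MTC A → T.Abelian B → T.MTC B → ∀ M : 𝓜,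
    GenBy T.L (fun N => N = A ∨ N = B) M → T.Abelian M ∧ T.MTC M
  lef : (T.Abelian (𝟙_ 𝓜) ∧ T.MTC (𝟙_ 𝓜)) ∧ T.Abelian T.L ∧ T.MTC T.L
  points : ∀ X : T.Hyp, T.Smooth X → T.dim X = 0 → T.Abelian (T.prim X) ∧ T.MTC (T.prim X)
  cubic : ∀ X : T.Hyp, T.Smooth X → T.deg X = 3 → T.dim X ≤ 2 →
    T.Abelian (T.prim X) ∧ T.MTC (T.prim X)
  quartic : ∀ X : T.Hyp, T.Smooth X → T.deg X = 4 → T.dim X ≤ 2 →
    T.Abelian (T.prim X) ∧ T.MTC (T.prim X)

variable {T}

/-- the abelian motives for which the conjecture holds form a tannakian category -/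
lemma closed (hT : T.Facts) {P : 𝓜 → Prop} (hP : ∀ M, P M → T.Abelian M ∧ T.MTC M) {M : 𝓜}
    (hM : GenBy T.L P M) : T.Abelian M ∧ T.MTC M := by
  induction hM with
  | of h => exact hP _ h
  | unit => exact hT.lef.1
  | lef => exact hT.lef.2
  | @tensor A B _ _ ih₁ ih₂ =>
    exact hT.commelin A B ih₁.1 ih₁.2 ih₂.1 ih₂.2 _
      (.tensor (.of (Or.inl rfl)) (.of (Or.inr rfl)))
  | @split M A B i₁ r₁ i₂ r₂ e _ _ ih₁ ih₂ =>
    exact hT.commelin A B ih₁.1 ih₁.2 ih₂.1 ih₂.2 _
      (.split i₁ r₁ i₂ r₂ e (.of (Or.inl rfl)) (.of (Or.inr rfl)))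
  | @untwist A _ ih =>
    exact hT.commelin (A ⊗ T.L) (A ⊗ T.L) ih.1 ih.2 ih.1 ih.2 _ (.untwist (.of (Or.inl rfl)))

lemma ternary (hT : T.Facts) {W : T.Hyp} (hW : T.IsTernarySum W) :
    T.Smooth W ∧ T.Abelian (T.prim W) ∧ T.MTC (T.prim W) := by
  let P : 𝓜 → Prop := fun M => T.Abelian M ∧ T.MTC M
  rcases hW with h | h
  · have := JoinData.genBy_sum hT.core (d := 3) (by norm_num) (B := T.forms 3 1)
      (fun X hX => ⟨hX.1, hX.2.1⟩) (fun X hX hd => ?_) (P := P) ?_ h
    · exact ⟨this.1.1, closed hT (fun _ h => h) this.2.1⟩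
    · obtain ⟨a, b⟩ := hT.core.diag_prop hX
      exact ⟨a, hd, by omega⟩
    · rintro X (⟨h1, h2, h3⟩ | ⟨Y, ⟨h1, h2, h3⟩, hY⟩)
      · exact .of (hT.cubic X h1 h2 (by omega))
      · obtain ⟨a, b, c⟩ := hT.core.cyc_prop hY
        exact .of (hT.cubic X a (by omega) (by omega))
  · have := JoinData.genBy_sum hT.core (d := 4) (by norm_num) (B := T.forms 4 1)
      (fun X hX => ⟨hX.1, hX.2.1⟩) (fun X hX hd => ?_) (P := P) ?_ h
    · exact ⟨this.1.1, closed hT (fun _ h => h) this.2.1⟩
    · obtain ⟨a, b⟩ := hT.core.diag_prop hX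
      exact ⟨a, hd, by omega⟩
    · rintro X (⟨h1, h2, h3⟩ | ⟨Y, ⟨h1, h2, h3⟩, hY⟩)
      · exact .of (hT.quartic X h1 h2 (by omega))
      · obtain ⟨a, b, c⟩ := hT.core.cyc_prop hY
        exact .of (hT.quartic X a (by omega) (by omega))

/-- main theorem -/
theorem final (hT : T.Facts) (M : 𝓜)
    (hM : GenBy T.L (fun N => (T.Abelian N ∧ T.MTC N) ∨ ∃ W, T.IsTernarySum W ∧ N = T.mot W) M) :
    T.Abelian M ∧ T.MTC M := by
  refine closed hT (P := fun M => T.Abelian M ∧ T.MTC M) (fun _ h => h) (hM.bind ?_)
  rintro N (hN | ⟨W, hW, rfl⟩)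
  · exact .of hN
  · obtain ⟨hs, h⟩ := ternary hT hW
    refine (hT.mot W hs).bind ?_
    rintro N rfl
    exact .of h

end MTData

end Pool.Agent.Q296.ES
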